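import Pool.Agent.H35.K2S.WS
import Pool.Agent.H18.PB.Clg

/-!
# The rows of the base position in a context, for the families of a class
-/

set_option autoImplicit false

namespace Pool.S6K.Wfe

open Finset Real
open Pool.Agent.H49.Ent Pool.Agent.H32.Dense Pool.STK Pool.KA Pool.KA.Win Pool.KA.TRC
  Pool.K2S Pool.K2S.Rows Pool.K2S.FF Pool.PB

/-- A large event in a regular family with nearly uniform times. -/
theorem res_Tm {m J : ℕ} {F : Fam m J} {τ c : ℝ} (hτ : 0 ≤ τ) (hc : 0 ≤ c) (hT : F.Tr)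
    (hM : F.Tm (τ * J)) (hR : F.Rb (τ * J)) {B : F.Ω → Prop}
    (hB : Real.exp (-(c * J)) ≤ Pe F.p B) (hl : IsLaw (Pool.Agent.H49.Ent.cond F.p B True)) :
    (F.res B True hl).Tm ((5 * τ + c) * J) := by
  have hJ : (0 : ℝ) ≤ J := Nat.cast_nonneg J
  obtain ⟨_, -, -, h3, -⟩ := res_thm m J F 1 (τ * J) (c * J) (τ * J) (by linarith only)
    (by positivity) (by positivity) hT hR hM B hB
  unfold Fam.Tm at h3 ⊢
  refine le_trans ?_ h3
  have : τ * J + 4 * (τ * J) + c * J = (5 * τ + c) * J := by ring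
  linarith

/-- **Rows of the chart coordinate in a context**, for a class. -/
theorem ws_cls {m : ℕ} {η : ℝ} (hη : 0 < η) : ∃ γ : ℝ, 0 < γ ∧
    ∀ δ κ : ℝ, 0 < κ → ∃ τ > 0, ∃ J₁ : ℕ, ∀ J ≥ J₁, ∀ (F : Fam m J) (A : F.Ω → Prop),
    F.Tr → F.Tm (τ * J) → F.Rb (τ * J) → Real.exp (-(τ * J)) ≤ Pe F.p A →
    ∀ (i₀ : Fin m) (w q s x1 : ℕ) (σ : Type) (S : F.Ω → σ),
    q + w + s ≤ J → (x1 : ℝ) ≤ γ * J → Stb F.p (κ * J) A (FrzG F i₀ q (q + x1)) →
    ¬ FrzG F i₀ q (q + x1) A → Det F.p (wnd F w) S →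
    (∀ B : F.Ω → Prop, Sub B A → 0 < Pe F.p B →
      CH (Pool.Agent.H49.Ent.cond F.p B True) S (ptq F i₀ q) ≤ δ) →
    s * Real.log 2 - η * J ≤
      CH (Pool.Agent.H49.Ent.cond F.p A True) (fun ω => ⌊(2 : ℝ) ^ (q + w + s) * F.x ω i₀⌋)
        (fun ω => (F.T ω, ((⌊(2 : ℝ) ^ (q + w) * F.x1 w ω i₀⌋, ⌊(2 : ℝ) ^ q * F.d ω i₀⌋),
          (S ω, F.Z ω)))) := by
  have hl2 : 0 < Real.log 2 := Real.log_pos one_lt_two
  have hl21 : Real.log 2 ≤ 1 := by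
    have := Real.log_two_lt_d9
    linarith only [hl2, this]
  have hcc := cc_nonneg 1
  obtain ⟨C₀, hC₀, hev⟩ := ws_event
  obtain ⟨N, hN⟩ := exists_nat_gt (64 / η + 1)
  have hN64 : 0 < 64 / η := by positivity
  have hNr : (0 : ℝ) < N := by linarith
  have hN1r : (1 : ℝ) ≤ N := by linarith
  have hN1 : 1 ≤ N := by exact_mod_cast hN1r
  have hNη : 64 ≤ N * η := by
    have : 64 / η < N := by linarith only [hN]
    rw [div_lt_iff₀ hη] at this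
    exact this.le
  obtain ⟨γ, hγ⟩ : ∃ γ : ℝ, γ = η / (64 * ((C₀ + 1) * (N + 1))) := ⟨_, rfl⟩
  have hγ0 : 0 < γ := by rw [hγ]; positivity
  have hγ1 : 64 * ((C₀ + 1) * (N + 1)) * γ = η := by
    rw [hγ]
    field_simp
  refine ⟨γ, hγ0, fun δ κ hκ => ?_⟩
  obtain ⟨τ, hτ⟩ : ∃ τ : ℝ, τ = γ / 7 := ⟨_, rfl⟩
  have hτ0 : 0 < τ := by rw [hτ]; positivity
  have hτ1 : 5 * τ + 2 * τ = γ := by
    rw [hτ]
    ring
  obtain ⟨D, hD⟩ : ∃ D : ℝ, D = 4 * (|δ| + (2 * N + 4) * cc 1 + 1) + 6 * Real.log 2 := ⟨_, rfl⟩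
  have hD0 : 0 ≤ D := by rw [hD]; positivity
  obtain ⟨t₀, ht₀⟩ : ∃ t₀ : ℝ, t₀ = η / 64 := ⟨_, rfl⟩
  have ht₀0 : 0 < t₀ := by rw [ht₀]; positivity
  obtain ⟨J₂, hJ₂⟩ := exists_nat_gt (D / κ + 5 / γ + Real.log 2 / τ +
    4 * |Real.log t₀| / κ + 1)
  refine ⟨τ, hτ0, J₂, ?_⟩
  intro J hJ F A hTr hTm0 hRb hPA i₀ w q s x1 σ S hwJ hx1 hFs hFn hSd hvis
  have hJr : D / κ + 5 / γ + Real.log 2 / τ + 4 * |Real.log t₀| / κ + 1 < J :=
    hJ₂.trans_le (by exact_mod_cast hJ)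
  have q1 : 0 ≤ D / κ := by positivity
  have q2 : 0 ≤ 5 / γ := by positivity
  have q3 : 0 ≤ Real.log 2 / τ := by positivity
  have q4 : 0 ≤ 4 * |Real.log t₀| / κ := by positivity
  have hJ0 : (0 : ℝ) < J := by linarith only [hJr, q1, q2, q3, q4]
  have r1 : D ≤ κ * J := by
    have h1 : D / κ < J := by linarith only [hJr, q2, q3, q4]
    rw [div_lt_iff₀ hκ] at h1
    linarith only [h1]
  have r2 : 5 ≤ γ * J := by
    have h1 : 5 / γ < J := by linarith only [hJr, q1, q3, q4]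
    rw [div_lt_iff₀ hγ0] at h1
    linarith only [h1]
  have r3 : Real.log 2 ≤ τ * J := by
    have h1 : Real.log 2 / τ < J := by linarith only [hJr, q1, q2, q4]
    rw [div_lt_iff₀ hτ0] at h1
    linarith only [h1]
  have r4 : Real.exp (-(κ * J / 4)) ≤ t₀ := by
    have h1 : 4 * |Real.log t₀| / κ < J := by linarith only [hJr, q1, q2, q3]
    rw [div_lt_iff₀ hκ] at h1
    rw [← Real.exp_log ht₀0]
    refine Real.exp_le_exp.2 ?_
    have := neg_abs_le (Real.log t₀)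
    linarith only [h1, this]
  have hA0 : 0 < Pe F.p A := lt_of_lt_of_le (Real.exp_pos _) hPA
  obtain ⟨e, he⟩ : ∃ e : ℝ, e = (5 * τ + 2 * τ) * J := ⟨_, rfl⟩
  have he0 : 0 ≤ e := by rw [he, hτ1]; positivity
  have heJ : e = γ * J := by rw [he, hτ1]
  have key := hev m J F A i₀ w q s N x1 (κ * J) e δ σ S hwJ hN1 he0 hA0 (by
      intro B hB hPB hl
      have hPB' : Real.exp (-((2 * τ) * J)) ≤ Pe F.p B := by
        refine le_trans ?_ hPB
        have h1 : Real.exp (-((2 * τ) * J)) ≤ Real.exp (-(τ * J)) / 2 := by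
          rw [le_div_iff₀ (by norm_num)]
          have h2 : (2 : ℝ) = Real.exp (Real.log 2) := by rw [Real.exp_log (by norm_num)]
          calc Real.exp (-((2 * τ) * J)) * 2 = Real.exp (-((2 * τ) * J)) *
                Real.exp (Real.log 2) := by rw [← h2]
            _ = Real.exp (-((2 * τ) * J) + Real.log 2) := by rw [← Real.exp_add]
            _ ≤ _ := Real.exp_le_exp.2 (by linarith only [r3])
        linarith only [hPA, h1]
      rw [he]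
      exact res_Tm hτ0.le (by linarith only [hτ0]) hTr hTm0 hRb hPB' hl)
    hFs hFn hSd hvis (by rw [← hD]; exact r1)
  refine le_trans ?_ key
  obtain ⟨ρ, hρ⟩ : ∃ ρ, ρ = Real.exp (-(κ * J / 4)) := ⟨_, rfl⟩
  rw [← hρ] at r4 ⊢
  have hρ0 : 0 ≤ ρ := by rw [hρ]; exact (Real.exp_pos _).le
  have hsJ : (s : ℝ) ≤ J := by
    have : s ≤ J := by omega
    exact_mod_cast this
  have hs0 : (0 : ℝ) ≤ s := Nat.cast_nonneg s
  have hsN : ((s / N : ℕ) : ℝ) ≤ η / 64 * J := by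
    have h1 : ((s / N : ℕ) : ℝ) ≤ s / N := Nat.cast_div_le
    have h2 : (s : ℝ) / N ≤ J / N := div_le_div_of_nonneg_right hsJ hNr.le
    have h3 : (J : ℝ) / N ≤ η / 64 * J := by
      rw [div_le_iff₀ hNr]
      have : 64 * (J : ℝ) ≤ N * η * J := mul_le_mul_of_nonneg_right hNη hJ0.le
      linarith only [this]
    linarith only [h1, h2, h3]
  have hx0 : (0 : ℝ) ≤ x1 := Nat.cast_nonneg x1
  have t1 : C₀ * ((N + 1) * ((x1 : ℝ) + 4 + e + 1)) ≤ 3 / 64 * (η * J) := by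
    have h1 : (x1 : ℝ) + 4 + e + 1 ≤ 3 * (γ * J) := by
      rw [heJ]
      linarith only [hx1, r2]
    have h2 : (N + 1) * ((x1 : ℝ) + 4 + e + 1) ≤ (N + 1) * (3 * (γ * J)) :=
      mul_le_mul_of_nonneg_left h1 (by linarith only [hN, hN64])
    have h3 : C₀ * ((N + 1) * ((x1 : ℝ) + 4 + e + 1)) ≤ (C₀ + 1) * ((N + 1) * (3 * (γ * J))) :=
      mul_le_mul (by linarith only) h2 (by positivity) (by linarith only [hC₀])
    refine h3.trans (le_of_eq ?_)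
    rw [← hγ1]
    ring
  have t2 : 4 * ((J : ℝ) * ρ) ≤ 4 / 64 * (η * J) := by
    have h1 : (J : ℝ) * ρ ≤ J * t₀ := mul_le_mul_of_nonneg_left r4 hJ0.le
    rw [ht₀] at h1
    linarith only [h1]
  obtain ⟨Er, hEr⟩ : ∃ Er : ℝ, Er = C₀ * ((N + 1) * ((x1 : ℝ) + 4 + e + 1)) +
      4 * (s / N : ℕ) + 4 * (J * ρ) := ⟨_, rfl⟩
  rw [← hEr]
  have hEr0 : 0 ≤ Er := by rw [hEr]; positivity
  have hEr1 : Er ≤ 1 / 4 * (η * J) := by
    rw [hEr]
    have : 0 ≤ η * J := by positivity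
    linarith only [hsN, t1, t2]
  have h5 : ρ * (s * Real.log 2) ≤ η / 64 * J := by
    have h6 : (s : ℝ) * Real.log 2 ≤ J := by
      have : (s : ℝ) * Real.log 2 ≤ s * 1 := mul_le_mul_of_nonneg_left hl21 hs0
      linarith only [hsJ, this]
    have h7 : 0 ≤ (s : ℝ) * Real.log 2 := by positivity
    calc ρ * (s * Real.log 2) ≤ t₀ * J := mul_le_mul r4 h6 h7 ht₀0.le
      _ = _ := by rw [ht₀]
  have h8 : 0 ≤ ρ * Er := mul_nonneg hρ0 hEr0
  have h9 : 0 ≤ η * J := by positivity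
  nlinarith only [hsN, t1, t2, hEr, h5, h8]

end Pool.S6K.Wfe
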