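import Pool.Agent.H64.KS6.Wfe
import Pool.Agent.H8.KS6.BoxC

/-!
# The rows of the base position are full in the contexts `B(w; w + q, U, P)`
-/

set_option autoImplicit false

namespace Pool.S6K.Wfe

open Finset Real
open Pool.Agent.H49.Ent Pool.Agent.H32.Dense Pool.STK Pool.KA Pool.KA.Win Pool.KA.TRC
  Pool.K2S Pool.K2S.Rows Pool.K2S.FF Pool.PB

variable {J : ℕ}

/-- The conditions on a context `B(w; w + q, U, P)` with the frame `(a, s, t)`: the fans of exact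
points are straight to `H` digits, in the direction `f`; the frame is a function of the line and of
the window, it is visible from the exact point and `q` digits of the base velocity, and its
covectors annihilate `f` up to `U - w - q` and `P - w - q` digits. -/
structure COK (F : Fam 3 J) (A : F.Ω → Prop) (σ : Fin 3 → Fin 3) (w q U P H : ℕ)
    (f n : (Fin 3 → ℤ) × (ℕ × F.ζ) → Fin 3 → ℝ) (a s t : F.Ω → ℝ) (B C δ : ℝ) : Prop where
  wU : w ≤ U
  wP : w ≤ P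
  UJ : U ≤ J
  PJ : P ≤ J
  UH : U ≤ w + H
  PH : P ≤ w + H
  on : ∀ ω, A ω → ∀ j, |F.d ω j - f (Fam.pt F ω) j * F.d ω (σ 0) - n (Fam.pt F ω) j| ≤ 1 / 2 ^ H
  bd : ∀ ω, A ω → |a ω| ≤ B ∧ |s ω| ≤ B ∧ |t ω| ≤ B
  an1 : ∀ ω, A ω → |f (Fam.pt F ω) (σ 1) - a ω * f (Fam.pt F ω) (σ 0)| ≤ C / 2 ^ (U - w - q)
  an2 : ∀ ω, A ω → |f (Fam.pt F ω) (σ 2) - s ω * f (Fam.pt F ω) (σ 1) -
    t ω * f (Fam.pt F ω) (σ 0)| ≤ C / 2 ^ (P - w - q)
  det : Det F.p (wnd F w) (fun ω => (a ω, s ω, t ω))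
  vis : ∀ B' : F.Ω → Prop, Sub B' A → 0 < Pe F.p B' →
    CH (Pool.Agent.H49.Ent.cond F.p B' True) (fun ω => (a ω, s ω, t ω)) (ptq F (σ 0) q) ≤ δ

/-- The two covectors of the frame. -/
noncomputable def zab {Ω : Type} (σ : Fin 3 → Fin 3) (a s t : Ω → ℝ) (ω : Ω) (i : Fin 2) :
    Fin 3 → ℝ := tfr σ (a ω) (s ω) (t ω) i.succ

theorem tfr_le (σ : Fin 3 → Fin 3) {a s t B : ℝ} (hB : 0 ≤ B) (ha : |a| ≤ B) (hs : |s| ≤ B)
    (ht : |t| ≤ B) (i j : Fin 3) : |tfr σ a s t i j| ≤ 1 + 2 * B := by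
  have k1 : ∀ x : ℝ, |x| ≤ B → ∀ c : Prop, ∀ _ : Decidable c,
      |x * (if c then (1 : ℝ) else 0)| ≤ B := by
    intro x hx c _
    by_cases h : c
    · rw [if_pos h, mul_one]
      exact hx
    · rw [if_neg h, mul_zero, abs_zero]
      exact hB
  have k0 : ∀ c : Prop, ∀ _ : Decidable c, |(if c then (1 : ℝ) else 0)| ≤ 1 := by
    intro c _
    by_cases h : c
    · rw [if_pos h, abs_one]
    · rw [if_neg h, abs_zero]
      norm_num
  fin_cases i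
  · change |(if j = σ 0 then (1 : ℝ) else 0)| ≤ _
    have := k0 (j = σ 0) inferInstance
    linarith
  · change |(if j = σ 1 then (1 : ℝ) else 0) - a * (if j = σ 0 then 1 else 0)| ≤ _
    have h1 := k0 (j = σ 1) inferInstance
    have h2 := k1 a ha (j = σ 0) inferInstance
    refine (abs_sub _ _).trans ?_
    linarith
  · change |(if j = σ 2 then (1 : ℝ) else 0) - s * (if j = σ 1 then 1 else 0) -
      t * (if j = σ 0 then 1 else 0)| ≤ _
    have h1 := k0 (j = σ 2) inferInstance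
    have h2 := k1 s hs (j = σ 1) inferInstance
    have h3 := k1 t ht (j = σ 0) inferInstance
    refine (abs_sub _ _).trans ?_
    have h4 := abs_sub ((if j = σ 2 then (1 : ℝ) else 0)) (s * (if j = σ 1 then 1 else 0))
    linarith

/-- The context is a context with linear labels. -/
theorem COK.lok {F : Fam 3 J} {A : F.Ω → Prop} {σ : Fin 3 → Fin 3} {w q U P H : ℕ}
    {f n : (Fin 3 → ℤ) × (ℕ × F.ζ) → Fin 3 → ℝ} {a s t : F.Ω → ℝ} {B C δ : ℝ}
    (h : COK F A σ w q U P H f n a s t B C δ) :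
    LOK F A (σ 0) w q H f n ![U, P] ![U - w, P - w] ![U - w - q, P - w - q] (zab σ a s t)
      (fun _ => ()) (1 + 2 * |B|) C δ := by
  have hU := h.wU
  have hP := h.wP
  have hUH := h.UH
  have hPH := h.PH
  refine ⟨?_, ?_, ?_, ?_, h.on, ?_, ?_, ?_, ?_⟩
  · intro i
    fin_cases i
    · exact h.UJ
    · exact h.PJ
  · intro i
    fin_cases i
    · change U ≤ U - w + w
      omega
    · change P ≤ P - w + w
      omega
  · intro i
    fin_cases i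
    · change U - w ≤ U - w - q + q
      omega
    · change P - w ≤ P - w - q + q
      omega
  · intro i
    fin_cases i
    · change U - w ≤ H
      omega
    · change P - w ≤ H
      omega
  · intro ω hω i j
    obtain ⟨b1, b2, b3⟩ := h.bd ω hω
    exact tfr_le σ (abs_nonneg B) (b1.trans (le_abs_self B)) (b2.trans (le_abs_self B))
      (b3.trans (le_abs_self B)) i.succ j
  · intro ω hω i
    fin_cases i
    · have h1 := h.an1 ω hω
      have h2 := Box.mco_tfr1 σ (a ω) (s ω) (t ω) (f (Fam.pt F ω))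
      rw [← h2] at h1
      exact h1
    · have h1 := h.an2 ω hω
      have h2 := Box.mco_tfr2 σ (a ω) (s ω) (t ω) (f (Fam.pt F ω))
      rw [← h2] at h1
      exact h1
  · intro ω ω' h1 h2 e
    have h3 : (a ω, s ω, t ω) = (a ω', s ω', t ω') := h.det ω ω' h1 h2 e
    have h4 := Prod.ext_iff.mp h3
    have h5 := Prod.ext_iff.mp h4.2
    have e1 : a ω = a ω' := h4.1
    have e2 : s ω = s ω' := h5.1
    have e3 : t ω = t ω' := h5.2
    change (zab σ a s t ω, ()) = (zab σ a s t ω', ())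
    unfold zab
    rw [e1, e2, e3]
  · intro B' hB' hB0
    refine le_trans (CH_mono_left (cond_nonneg F.isLaw.nonneg B' True) ?_) (h.vis B' hB' hB0)
    intro ω ω' _ _ e
    have e0 := Prod.ext_iff.mp e
    have h4 := Prod.ext_iff.mp e0.1
    have h5 := Prod.ext_iff.mp h4.2
    have e1 : a ω = a ω' := h4.1
    have e2 : s ω = s ω' := h5.1
    have e3 : t ω = t ω' := h5.2
    change (zab σ a s t ω, ()) = (zab σ a s t ω', ())
    unfold zab
    rw [e1, e2, e3]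

/-- The linear label and the base cells determine the context. -/
theorem ctx_of_lab {F : Fam 3 J} {σ : Fin 3 → Fin 3} {w q U P : ℕ} (hU : w ≤ U) (hP : w ≤ P)
    {a s t : F.Ω → ℝ} {ω ω' : F.Ω}
    (h1 : ⌊(2 : ℝ) ^ (q + w) * F.x1 w ω (σ 0)⌋ = ⌊(2 : ℝ) ^ (q + w) * F.x1 w ω' (σ 0)⌋)
    (h2 : ⌊(2 : ℝ) ^ q * F.d ω (σ 0)⌋ = ⌊(2 : ℝ) ^ q * F.d ω' (σ 0)⌋)
    (h3 : lab F w ![U, P] ![U - w, P - w] (zab σ a s t) (fun _ => ()) ω =
        lab F w ![U, P] ![U - w, P - w] (zab σ a s t) (fun _ => ()) ω') :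
    F.ctx σ w (w + q) U P a s t ω = F.ctx σ w (w + q) U P a s t ω' := by
  have a0 := Prod.ext_iff.mp h3
  have a1 := Prod.ext_iff.mp a0.1
  have a2 := Prod.ext_iff.mp a1.1
  have a3 := Prod.ext_iff.mp a1.2
  have hz : zab σ a s t ω = zab σ a s t ω' := (Prod.ext_iff.mp a2.2).1
  have hM : tfr σ (a ω) (s ω) (t ω) = tfr σ (a ω') (s ω') (t ω') := by
    funext i
    refine Fin.cases ?_ (fun i => ?_) i
    · rfl
    · exact congrFun hz i
  have hr := Box.vpr_add (w := w) (r := w + q) (U := U) (P := P) (by omega) hU hP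
  have k0 : vpr w (w + q) U P 0 = q := by
    change w + q - w = q
    omega
  have p0 : ∀ o : F.Ω, F.mps w (fun i => vpr w (w + q) U P i + w)
      (fun o => tfr σ (a o) (s o) (t o)) o 0 = ⌊(2 : ℝ) ^ (q + w) * F.x1 w o (σ 0)⌋ := by
    intro o
    change ⌊(2 : ℝ) ^ (vpr w (w + q) U P 0 + w) * mco (tfr σ (a o) (s o) (t o)) (F.x1 w o) 0⌋ = _
    rw [Box.mco_tfr0, k0]
  have v0 : ∀ o : F.Ω, F.mvl (vpr w (w + q) U P) (fun o => tfr σ (a o) (s o) (t o)) o 0 =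
      ⌊(2 : ℝ) ^ q * F.d o (σ 0)⌋ := by
    intro o
    change ⌊(2 : ℝ) ^ vpr w (w + q) U P 0 * mco (tfr σ (a o) (s o) (t o)) (F.d o) 0⌋ = _
    rw [Box.mco_tfr0, k0]
  refine Box.mlb_mk (F := F) (g := w) (M := fun o => tfr σ (a o) (s o) (t o)) a2.1 hM ?_ ?_ a0.2
  · funext i
    refine Fin.cases ?_ (fun i => ?_) i
    · rw [p0, p0]
      exact h1
    · have h6 := congrFun a3.1 i
      have e4 : vpr w (w + q) U P i.succ + w = (![U, P] : Fin 2 → ℕ) i := by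
        rw [hr]
        fin_cases i <;> rfl
      change ⌊(2 : ℝ) ^ (vpr w (w + q) U P i.succ + w) * _⌋ =
        ⌊(2 : ℝ) ^ (vpr w (w + q) U P i.succ + w) * _⌋
      rw [e4]
      exact h6
  · funext i
    refine Fin.cases ?_ (fun i => ?_) i
    · rw [v0, v0]
      exact h2
    · have h6 := congrFun a3.2 i
      have e4 : vpr w (w + q) U P i.succ = (![U - w, P - w] : Fin 2 → ℕ) i := by
        fin_cases i <;> rfl
      change ⌊(2 : ℝ) ^ vpr w (w + q) U P i.succ * _⌋ =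
        ⌊(2 : ℝ) ^ vpr w (w + q) U P i.succ * _⌋
      rw [e4]
      exact h6

/-- **(U-WF)** One family: the rows of the base position are full in the contexts. -/
theorem ctx_one {η : ℝ} (hη : 0 < η) : ∃ γ : ℝ, 0 < γ ∧
    ∀ B C δ κ : ℝ, 0 < κ → ∃ τ > 0, ∃ J₁ : ℕ, ∀ J ≥ J₁, ∀ (F : Fam 3 J) (A : F.Ω → Prop),
    F.Tr → F.Tm (τ * J) → F.Rb (τ * J) → Real.exp (-(τ * J)) ≤ Pe F.p A →
    ∀ (σ : Fin 3 → Fin 3) (w q x1 U P H : ℕ), (x1 : ℝ) ≤ γ * J →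
    Stb F.p (κ * J) A (FrzG F (σ 0) q (q + x1)) → ¬ FrzG F (σ 0) q (q + x1) A →
    ∀ (f n : (Fin 3 → ℤ) × (ℕ × F.ζ) → Fin 3 → ℝ) (a s t : F.Ω → ℝ),
    COK F A σ w q U P H f n a s t B C δ →
    ∀ p : ℕ, w + q ≤ p → p ≤ J → ((p : ℝ) - (w + q : ℕ)) * Real.log 2 - η * J ≤
      CH (Pool.Agent.H49.Ent.cond F.p A True) (fun ω => ⌊(2 : ℝ) ^ p * F.x ω (σ 0)⌋)
        (fun ω => (F.ctx σ w (w + q) U P a s t ω, F.T ω)) := by
  obtain ⟨γ, hγ, h1⟩ := wfe_one (m := 3) (r := 2) hη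
  refine ⟨γ, hγ, fun B C δ κ hκ => ?_⟩
  obtain ⟨τ, hτ, J₁, h2⟩ := h1 (1 + 2 * |B|) C δ κ hκ
  refine ⟨τ, hτ, J₁, fun J hJ F A hTr hTm hRb hPA σ w q x1 U P H hx1 hFs hFn f n a s t hC p
    hp hpJ => ?_⟩
  have key := h2 J hJ F A hTr hTm hRb hPA (σ 0) w q x1 H hx1 hFs hFn f n Unit _ _ _
    (zab σ a s t) (fun _ => ()) hC.lok p (by omega) hpJ
  have e1 : ((q + w : ℕ) : ℝ) = ((w + q : ℕ) : ℝ) := by
    push_cast
    ring
  rw [e1] at key
  refine key.trans (CH_mono_cond (cond_nonneg F.isLaw.nonneg A True) ?_)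
  intro ω ω' _ _ h
  have a1 := Prod.ext_iff.mp h
  have a2 := Prod.ext_iff.mp a1.1
  have a3 := Prod.ext_iff.mp a2.1
  exact Prod.ext (ctx_of_lab hC.wU hC.wP a3.1 a3.2 a2.2) a1.2

/-- **(U-WF)** in the classes. -/
theorem ctx_clg {η : ℝ} (hη : 0 < η) : ∃ γ : ℝ, 0 < γ ∧
    ∀ (S : FCl 3) (q x : ℕ → ℕ), (∀ J : ℕ, (x J : ℝ) ≤ γ * J) → ∀ (σ : Fin 3 → Fin 3)
    (B C δ : ℝ),
    Clg S (fun J F A => ¬ FrzG F (σ 0) (q J) (q J + x J) A → ∀ (w U P H : ℕ)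
      (f n : (Fin 3 → ℤ) × (ℕ × F.ζ) → Fin 3 → ℝ) (a s t : F.Ω → ℝ),
      COK F A σ w (q J) U P H f n a s t B C δ → ∀ p : ℕ, w + q J ≤ p → p ≤ J →
      ((p : ℝ) - (w + q J : ℕ)) * Real.log 2 - η * J ≤
        CH (Pool.Agent.H49.Ent.cond F.p A True) (fun ω => ⌊(2 : ℝ) ^ p * F.x ω (σ 0)⌋)
          (fun ω => (F.ctx σ w (w + q J) U P a s t ω, F.T ω))) := by
  obtain ⟨γ, hγ, h1⟩ := ctx_one hη
  refine ⟨γ, hγ, fun S q x hx σ B C δ => ?_⟩
  refine Clg.one ⟨1, fun J F _ => FrzG F (σ 0) (q J) (q J + x J),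
    fun J F _ => FrzG.hered F (σ 0) _ _⟩ fun κ hκ => ?_
  obtain ⟨τ, hτ, J₁, k1⟩ := h1 B C δ κ hκ
  refine ⟨τ, hτ, J₁, fun J hJ F A hS hSb hnF w U P H f n a s t hC p hp hpJ => ?_⟩
  exact k1 J hJ F A (S.tr hS.1) (S.tm hS.1) (S.rb hS.1) hS.2 σ w (q J) (x J) U P H (hx J)
    (hSb 0) hnF f n a s t hC p hp hpJ

/-- A frame whose entries are rounded values of functions of the exact point is visible. -/
theorem frame_vis (F : Fam 3 J) (i₀ : Fin 3) (q : ℕ) {A : F.Ω → Prop} {ka ks kt : ℕ}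
    {a s t : F.Ω → ℝ} {α s₀ t₀ : (Fin 3 → ℤ) × (ℕ × F.ζ) → ℝ} {E : ℝ}
    (ga : ∀ ω, ∃ c : ℤ, a ω = c / 2 ^ ka) (gs : ∀ ω, ∃ c : ℤ, s ω = c / 2 ^ ks)
    (gt : ∀ ω, ∃ c : ℤ, t ω = c / 2 ^ kt)
    (ha : ∀ ω, A ω → |a ω - α (Fam.pt F ω)| ≤ E / 2 ^ ka)
    (hs : ∀ ω, A ω → |s ω - s₀ (Fam.pt F ω)| ≤ E / 2 ^ ks)
    (ht : ∀ ω, A ω → |t ω - t₀ (Fam.pt F ω)| ≤ E / 2 ^ kt)
    (B' : F.Ω → Prop) (hB' : Sub B' A) (hB0 : 0 < Pe F.p B') :
    CH (Pool.Agent.H49.Ent.cond F.p B' True) (fun ω => (a ω, s ω, t ω)) (ptq F i₀ q) ≤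
      3 * Real.log (2 * (2 * E) + 1) := by
  have key := grid_vis F i₀ q (A := A) (r := 1) (k := fun _ => ![ka, ks, kt])
    (z := fun ω _ => ![a ω, s ω, t ω]) (φ := fun y _ => ![α y, s₀ y, t₀ y]) (E := E)
    (by
      intro ω _ j
      fin_cases j
      · exact ga ω
      · exact gs ω
      · exact gt ω)
    (by
      intro ω hω _ j
      fin_cases j
      · exact ha ω hω
      · exact hs ω hω
      · exact ht ω hω) B' hB' hB0
  refine le_trans (CH_mono_left (cond_nonneg F.isLaw.nonneg B' True) ?_) (key.trans (le_of_eq ?_))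
  · intro ω ω' _ _ e
    have e1 := congrFun (Prod.ext_iff.mp e).1 0
    have a0 : a ω = a ω' := congrFun e1 0
    have a1 : s ω = s ω' := congrFun e1 1
    have a2 : t ω = t ω' := congrFun e1 2
    change (a ω, s ω, t ω) = (a ω', s ω', t ω')
    rw [a0, a1, a2]
  · push_cast
    ring

end Pool.S6K.Wfe
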