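import Pool.Agent.H64.KS6.WfeA

/-!
# The rows of the base position are full in contexts with linear labels

The fans of exact points lie in lines `(1, f)` to the precision `H`. A label of the windows `w`
consists of finitely many covectors `z a`, functions of the line and of the window, which are
visible, up to bounded entropy, from the exact point and the first `q` digits of the base velocity,
and which annihilate the direction `f` at the exact point up to `2 ^ (- g a)`; of the positions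
`z a · x` at the beginning of the window to the precision `P a`, and of the velocities `z a · d` to
the precision `V a`, `P a - w ≤ V a ≤ g a + q`. If the base velocity is not frozen at `q`, the rows
of the base position after `q + w` are full given the label, the base position to `q + w`, the base
velocity to `q` and the exact time.
-/

set_option autoImplicit false

namespace Pool.S6K.Wfe

open Finset Real
open Pool.Agent.H49.Ent Pool.Agent.H32.Dense Pool.STK Pool.KA Pool.KA.Win Pool.KA.TRC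
  Pool.K2S Pool.K2S.Rows Pool.K2S.FF Pool.PB

variable {m J r : ℕ}

/-- A label of the windows `w`: covectors, window, further labels, positions and velocities. -/
noncomputable def lab {σ : Type} (F : Fam m J) (w : ℕ) (P V : Fin r → ℕ)
    (z : F.Ω → Fin r → Fin m → ℝ) (s : F.Ω → σ) (ω : F.Ω) :
    ((ℕ × ((Fin r → Fin m → ℝ) × σ)) × ((Fin r → ℤ) × (Fin r → ℤ))) × F.ζ :=
  (((F.T1 w ω, (z ω, s ω)), (fun a => ⌊(2 : ℝ) ^ P a * ∑ j, z ω a j * F.x1 w ω j⌋,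
    fun a => ⌊(2 : ℝ) ^ V a * ∑ j, z ω a j * F.d ω j⌋)), F.Z ω)

/-- The same label with the positions at the time of the sample. -/
noncomputable def labt {σ : Type} (F : Fam m J) (w : ℕ) (P V : Fin r → ℕ)
    (z : F.Ω → Fin r → Fin m → ℝ) (s : F.Ω → σ) (ω : F.Ω) :
    ((ℕ × ((Fin r → Fin m → ℝ) × σ)) × ((Fin r → ℤ) × (Fin r → ℤ))) × F.ζ :=
  (((F.T1 w ω, (z ω, s ω)), (fun a => ⌊(2 : ℝ) ^ P a * ∑ j, z ω a j * F.x ω j⌋,
    fun a => ⌊(2 : ℝ) ^ V a * ∑ j, z ω a j * F.d ω j⌋)), F.Z ω)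

/-- The conditions on a label. -/
structure LOK {σ : Type} (F : Fam m J) (A : F.Ω → Prop) (i₀ : Fin m) (w q H : ℕ)
    (f n : (Fin m → ℤ) × (ℕ × F.ζ) → Fin m → ℝ) (P V g : Fin r → ℕ)
    (z : F.Ω → Fin r → Fin m → ℝ) (s : F.Ω → σ) (B C δ : ℝ) : Prop where
  P_le : ∀ a, P a ≤ J
  PV : ∀ a, P a ≤ V a + w
  Vg : ∀ a, V a ≤ g a + q
  VH : ∀ a, V a ≤ H
  on : ∀ ω, A ω → ∀ j, |F.d ω j - f (Fam.pt F ω) j * F.d ω i₀ - n (Fam.pt F ω) j| ≤ 1 / 2 ^ H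
  bd : ∀ ω, A ω → ∀ a j, |z ω a j| ≤ B
  an : ∀ ω, A ω → ∀ a, |∑ j, z ω a j * f (Fam.pt F ω) j| ≤ C / 2 ^ g a
  det : Det F.p (wnd F w) (fun ω => (z ω, s ω))
  vis : ∀ B' : F.Ω → Prop, Sub B' A → 0 < Pe F.p B' →
    CH (Pool.Agent.H49.Ent.cond F.p B' True) (fun ω => (z ω, s ω)) (ptq F i₀ q) ≤ δ

theorem floor_diff {x y B : ℝ} (h : |x - y| ≤ B) : |((⌊x⌋ - ⌊y⌋ : ℤ) : ℝ)| ≤ B + 1 := by
  have h1 := Int.floor_le x
  have h2 := Int.lt_floor_add_one x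
  have h3 := Int.floor_le y
  have h4 := Int.lt_floor_add_one y
  rw [abs_le] at h ⊢
  push_cast
  constructor <;> linarith [h.1, h.2]

theorem floor_eq_abs {A B : ℝ} (h : ⌊A⌋ = ⌊B⌋) : |A - B| ≤ 1 := by
  have h1 := Int.floor_le A
  have h2 := Int.lt_floor_add_one A
  have h3 := Int.floor_le B
  have h4 := Int.lt_floor_add_one B
  rw [h] at h1 h2
  rw [abs_le]
  constructor <;> linarith

theorem x1_eq (F : Fam m J) {w : ℕ} (hw : w ≤ J) (ω : F.Ω) (k : Fin m) :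
    F.x1 w ω k = F.x ω k -
      ((F.T ω % 2 ^ (J - w) : ℕ) : ℝ) / 2 ^ (J - w) * (2 ^ w)⁻¹ * F.d ω k := by
  have h0 : F.x ω k = F.x1 w ω k +
      ((F.T ω % 2 ^ (J - w) : ℕ) : ℝ) / 2 ^ (J - w) * (2 ^ w)⁻¹ * F.d ω k := by
    change F.u ω k + F.t ω * F.d ω k = _
    have h1 := time_split J w (F.T ω) hw
    have h2 : F.t ω = (F.T ω : ℝ) / 2 ^ J := rfl
    rw [h2, h1]
    unfold Fam.x1 Fam.T1
    ring
  rw [h0]
  ring

/-- The fraction of the window. -/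
theorem tau_mem (F : Fam m J) (w : ℕ) (ω : F.Ω) :
    0 ≤ ((F.T ω % 2 ^ (J - w) : ℕ) : ℝ) / 2 ^ (J - w) ∧
      ((F.T ω % 2 ^ (J - w) : ℕ) : ℝ) / 2 ^ (J - w) ≤ 1 := by
  refine ⟨by positivity, ?_⟩
  rw [div_le_one (by positivity)]
  exact_mod_cast (Nat.mod_lt _ (by positivity)).le

theorem sum_abs_le {z y : Fin m → ℝ} {B E : ℝ} (hB : ∀ j, |z j| ≤ B) (hE : ∀ j, |y j| ≤ E) : |∑ j, z j * y j| ≤ m * B * E := by
  refine (Finset.abs_sum_le_sum_abs _ _).trans ?_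
  refine (Finset.sum_le_card_nsmul _ _ (B * E) fun j _ => ?_).trans ?_
  · rw [abs_mul]
    exact mul_le_mul (hB j) (hE j) (abs_nonneg _) ((abs_nonneg _).trans (hB j))
  · rw [Finset.card_univ, Fintype.card_fin, nsmul_eq_mul]
    exact le_of_eq (by ring)

/-- **Visibility of the label.** -/
theorem lab_vis {σ : Type} (F : Fam m J) {i₀ : Fin m} {w q H : ℕ} (hw : w ≤ J)
    {f n : (Fin m → ℤ) × (ℕ × F.ζ) → Fin m → ℝ} {P V g : Fin r → ℕ}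
    {z : F.Ω → Fin r → Fin m → ℝ} {s : F.Ω → σ} {B C δ : ℝ} (hB0 : 0 ≤ B)
    (hPJ : ∀ a, P a ≤ J) (hPV : ∀ a, P a ≤ V a + w) (hVg : ∀ a, V a ≤ g a + q)
    (hVH : ∀ a, V a ≤ H)
    (hon : ∀ ω, 0 < F.p ω → ∀ j,
      |F.d ω j - f (Fam.pt F ω) j * F.d ω i₀ - n (Fam.pt F ω) j| ≤ 1 / 2 ^ H)
    (hbd : ∀ ω, 0 < F.p ω → ∀ a j, |z ω a j| ≤ B)
    (han : ∀ ω, 0 < F.p ω → ∀ a, |∑ j, z ω a j * f (Fam.pt F ω) j| ≤ C / 2 ^ g a)
    (hvis : CH F.p (fun ω => (z ω, s ω)) (ptq F i₀ q) ≤ δ) :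
    CH F.p (lab F w P V z s) (ptq F i₀ q) ≤
      δ + 2 * (r * Real.log (2 * (C + 3 * (m * B) + 1) + 1)) := by
  have hp := F.isLaw.nonneg
  have h1 := F.isLaw.sum_one
  -- two samples
  have two : ∀ ω ω', 0 < F.p ω → 0 < F.p ω' →
      ((z ω, s ω), ptq F i₀ q ω) = ((z ω', s ω'), ptq F i₀ q ω') →
      z ω = z ω' ∧ s ω = s ω' ∧ F.T ω = F.T ω' ∧ F.Z ω = F.Z ω' ∧
      (∀ a, (2 : ℝ) ^ V a * |∑ j, z ω' a j * (F.d ω j - F.d ω' j)| ≤ C + 2 * (m * B)) ∧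
      (∀ a, (2 : ℝ) ^ P a * |∑ j, z ω' a j * (F.x1 w ω j - F.x1 w ω' j)| ≤
        C + 3 * (m * B)) := by
    intro ω ω' h h' e
    have e1 := Prod.ext_iff.mp e
    have e1' := Prod.ext_iff.mp e1.1
    have hzz : z ω = z ω' := e1'.1
    have hss : s ω = s ω' := e1'.2
    have e2 := Prod.ext_iff.mp e1.2
    have hpt : Fam.pt F ω = Fam.pt F ω' := e2.1
    have hb : ⌊(2 : ℝ) ^ q * F.d ω i₀⌋ = ⌊(2 : ℝ) ^ q * F.d ω' i₀⌋ := e2.2
    have e4 : F.X J ω = F.X J ω' ∧ F.W ω = F.W ω' := Prod.ext_iff.mp hpt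
    have e5 := Prod.ext_iff.mp e4.2
    have hT : F.T ω = F.T ω' := e5.1
    have pq : (0 : ℝ) < 2 ^ q := by positivity
    have hd : |F.d ω i₀ - F.d ω' i₀| ≤ 1 / 2 ^ q := by
      have := floor_eq_abs hb
      rw [← mul_sub, abs_mul, abs_of_pos pq] at this
      rw [le_div_iff₀ pq]
      linarith only [this]
    have hx : ∀ k, |F.x ω k - F.x ω' k| ≤ 1 / 2 ^ J := by
      intro k
      have h2 : ⌊(2 : ℝ) ^ J * F.x ω k⌋ = ⌊(2 : ℝ) ^ J * F.x ω' k⌋ := congrFun e4.1 k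
      have := floor_eq_abs h2
      have pJ : (0 : ℝ) < 2 ^ J := by positivity
      rw [← mul_sub, abs_mul, abs_of_pos pJ] at this
      rw [le_div_iff₀ pJ]
      linarith only [this]
    -- velocities
    have hv : ∀ a, (2 : ℝ) ^ V a * |∑ j, z ω' a j * (F.d ω j - F.d ω' j)| ≤
        C + 2 * (m * B) := by
      intro a
      have g1 : ∑ j, z ω' a j * (F.d ω j - F.d ω' j) =
          (∑ j, z ω' a j * f (Fam.pt F ω') j) * (F.d ω i₀ - F.d ω' i₀) +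
            ∑ j, z ω' a j * ((F.d ω j - f (Fam.pt F ω) j * F.d ω i₀ - n (Fam.pt F ω) j) -
              (F.d ω' j - f (Fam.pt F ω') j * F.d ω' i₀ - n (Fam.pt F ω') j)) := by
        rw [Finset.sum_mul, ← Finset.sum_add_distrib]
        refine Finset.sum_congr rfl fun j _ => ?_
        rw [hpt]
        ring
      have g2 : |∑ j, z ω' a j * ((F.d ω j - f (Fam.pt F ω) j * F.d ω i₀ -
          n (Fam.pt F ω) j) - (F.d ω' j - f (Fam.pt F ω') j * F.d ω' i₀ -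
            n (Fam.pt F ω') j))| ≤ m * B * (2 / 2 ^ H) := by
        refine sum_abs_le (hbd ω' h' a) (fun j => ?_)
        refine (abs_sub _ _).trans ?_
        have a1 := hon ω h j
        have a2 := hon ω' h' j
        calc _ ≤ (1 : ℝ) / 2 ^ H + 1 / 2 ^ H := add_le_add a1 a2
          _ = 2 / 2 ^ H := by ring
      have g3 : |(∑ j, z ω' a j * f (Fam.pt F ω') j) * (F.d ω i₀ - F.d ω' i₀)| ≤
          C / 2 ^ g a * (1 / 2 ^ q) := by
        rw [abs_mul]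
        exact mul_le_mul (han ω' h' a) hd (abs_nonneg _) ((abs_nonneg _).trans (han ω' h' a))
      have hC0 : 0 ≤ C := by
        have := (abs_nonneg _).trans (han ω' h' a)
        have pg : (0 : ℝ) < 2 ^ g a := by positivity
        rcases le_or_gt 0 C with h0 | h0
        · exact h0
        · exact absurd (div_neg_of_neg_of_pos h0 pg) (not_lt.2 this)
      rw [g1]
      have g4 : (2 : ℝ) ^ V a * (C / 2 ^ g a * (1 / 2 ^ q)) ≤ C := by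
        have e6 : (2 : ℝ) ^ V a * (C / 2 ^ g a * (1 / 2 ^ q)) =
            C * (2 ^ V a / 2 ^ (g a + q)) := by
          rw [pow_add]
          field_simp
        rw [e6]
        have : (2 : ℝ) ^ V a / 2 ^ (g a + q) ≤ 1 := by
          rw [div_le_one (by positivity)]
          exact pow_le_pow_right₀ (by norm_num) (hVg a)
        calc C * (2 ^ V a / 2 ^ (g a + q)) ≤ C * 1 := mul_le_mul_of_nonneg_left this hC0
          _ = C := mul_one C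
      have g5 : (2 : ℝ) ^ V a * (m * B * (2 / 2 ^ H)) ≤ 2 * (m * B) := by
        have e6 : (2 : ℝ) ^ V a * (m * B * (2 / 2 ^ H)) = 2 * (m * B) * (2 ^ V a / 2 ^ H) := by
          field_simp
        rw [e6]
        have : (2 : ℝ) ^ V a / 2 ^ H ≤ 1 := by
          rw [div_le_one (by positivity)]
          exact pow_le_pow_right₀ (by norm_num) (hVH a)
        calc 2 * (m * B) * (2 ^ V a / 2 ^ H) ≤ 2 * (m * B) * 1 :=
              mul_le_mul_of_nonneg_left this (by positivity)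
          _ = _ := mul_one _
      have g6 := abs_add_le ((∑ j, z ω' a j * f (Fam.pt F ω') j) * (F.d ω i₀ - F.d ω' i₀))
        (∑ j, z ω' a j * ((F.d ω j - f (Fam.pt F ω) j * F.d ω i₀ -
          n (Fam.pt F ω) j) - (F.d ω' j - f (Fam.pt F ω') j * F.d ω' i₀ -
            n (Fam.pt F ω') j)))
      have pV : (0 : ℝ) ≤ 2 ^ V a := by positivity
      calc _ ≤ (2 : ℝ) ^ V a * (C / 2 ^ g a * (1 / 2 ^ q) + m * B * (2 / 2 ^ H)) :=
            mul_le_mul_of_nonneg_left (g6.trans (add_le_add g3 g2)) pV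
        _ ≤ C + 2 * (m * B) := by rw [mul_add]; exact add_le_add g4 g5
    refine ⟨hzz, hss, hT, e5.2, hv, fun a => ?_⟩
    -- positions
    obtain ⟨τ, hτ⟩ : ∃ τ : ℝ, τ = ((F.T ω' % 2 ^ (J - w) : ℕ) : ℝ) / 2 ^ (J - w) := ⟨_, rfl⟩
    have hτm := tau_mem F w ω'
    rw [← hτ] at hτm
    have g1 : ∑ j, z ω' a j * (F.x1 w ω j - F.x1 w ω' j) =
        ∑ j, z ω' a j * (F.x ω j - F.x ω' j) -
          τ * (2 ^ w)⁻¹ * ∑ j, z ω' a j * (F.d ω j - F.d ω' j) := by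
      rw [Finset.mul_sum, ← Finset.sum_sub_distrib]
      refine Finset.sum_congr rfl fun j _ => ?_
      rw [x1_eq F hw, x1_eq F hw, hT, ← hτ]
      ring
    have g2 : |∑ j, z ω' a j * (F.x ω j - F.x ω' j)| ≤ m * B * (1 / 2 ^ J) :=
      sum_abs_le (hbd ω' h' a) hx
    obtain ⟨A₁, hA₁⟩ : ∃ A₁, A₁ = |∑ j, z ω' a j * (F.d ω j - F.d ω' j)| := ⟨_, rfl⟩
    have hv' := hv a
    rw [← hA₁] at hv'
    have hA₁0 : 0 ≤ A₁ := by rw [hA₁]; exact abs_nonneg _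
    have g3 : |τ * (2 ^ w)⁻¹ * ∑ j, z ω' a j * (F.d ω j - F.d ω' j)| ≤ (2 ^ w)⁻¹ * A₁ := by
      rw [abs_mul, abs_mul, abs_of_nonneg hτm.1, ← hA₁,
        abs_of_pos (by positivity : (0 : ℝ) < (2 ^ w)⁻¹)]
      refine mul_le_mul_of_nonneg_right ?_ hA₁0
      calc τ * (2 ^ w)⁻¹ ≤ 1 * (2 ^ w)⁻¹ := mul_le_mul_of_nonneg_right hτm.2 (by positivity)
        _ = (2 ^ w)⁻¹ := one_mul _
    have g4 : (2 : ℝ) ^ P a * (m * B * (1 / 2 ^ J)) ≤ m * B := by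
      have e6 : (2 : ℝ) ^ P a * (m * B * (1 / 2 ^ J)) = m * B * (2 ^ P a / 2 ^ J) := by
        field_simp
      rw [e6]
      have : (2 : ℝ) ^ P a / 2 ^ J ≤ 1 := by
        rw [div_le_one (by positivity)]
        exact pow_le_pow_right₀ (by norm_num) (hPJ a)
      calc m * B * (2 ^ P a / 2 ^ J) ≤ m * B * 1 :=
            mul_le_mul_of_nonneg_left this (by positivity)
        _ = _ := mul_one _
    have g5 : (2 : ℝ) ^ P a * ((2 ^ w)⁻¹ * A₁) ≤ C + 2 * (m * B) := by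
      refine le_trans ?_ hv'
      rw [← mul_assoc]
      refine mul_le_mul_of_nonneg_right ?_ hA₁0
      have : (2 : ℝ) ^ P a ≤ 2 ^ V a * 2 ^ w := by
        rw [← pow_add]
        exact pow_le_pow_right₀ (by norm_num) (hPV a)
      calc (2 : ℝ) ^ P a * (2 ^ w)⁻¹ ≤ 2 ^ V a * 2 ^ w * (2 ^ w)⁻¹ :=
            mul_le_mul_of_nonneg_right this (by positivity)
        _ = 2 ^ V a := by field_simp
    rw [g1]
    have pP : (0 : ℝ) ≤ 2 ^ P a := by positivity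
    calc _ ≤ (2 : ℝ) ^ P a * (m * B * (1 / 2 ^ J) + (2 ^ w)⁻¹ * A₁) :=
          mul_le_mul_of_nonneg_left ((abs_sub _ _).trans (add_le_add g2 g3)) pP
      _ ≤ m * B + (C + 2 * (m * B)) := by rw [mul_add]; exact add_le_add g4 g5
      _ = C + 3 * (m * B) := by ring
  obtain ⟨K, hK⟩ : ∃ K : ℝ, K = C + 3 * (m * B) + 1 := ⟨_, rfl⟩
  have hmB : 0 ≤ (m : ℝ) * B := by positivity
  rw [← hK]
  -- the positions
  have c1 : CH F.p (fun ω (a : Fin r) => ⌊(2 : ℝ) ^ P a * ∑ j, z ω a j * F.x1 w ω j⌋)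
      (fun ω => ((z ω, s ω), ptq F i₀ q ω)) ≤ r * Real.log (2 * K + 1) := by
    have h2 := CH_le_vec hp h1 (fun ω (a : Fin r) =>
      ⌊(2 : ℝ) ^ P a * ∑ j, z ω a j * F.x1 w ω j⌋) (fun ω => ((z ω, s ω), ptq F i₀ q ω))
      (fun _ => K) (by
        intro ω ω' h h' e a
        obtain ⟨hzz, -, -, -, -, hx⟩ := two ω ω' h h' e
        have h3 := hx a
        rw [hzz, hK]
        refine floor_diff ?_
        rw [← mul_sub, abs_mul, abs_of_pos (by positivity : (0 : ℝ) < 2 ^ P a),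
          ← Finset.sum_sub_distrib]
        refine le_trans (le_of_eq ?_) h3
        congr 2
        refine Finset.sum_congr rfl fun j _ => ?_
        ring)
    rwa [Ex_const h1] at h2
  have c2 : CH F.p (fun ω (a : Fin r) => ⌊(2 : ℝ) ^ V a * ∑ j, z ω a j * F.d ω j⌋)
      (fun ω => ((z ω, s ω), ptq F i₀ q ω)) ≤ r * Real.log (2 * K + 1) := by
    have h2 := CH_le_vec hp h1 (fun ω (a : Fin r) =>
      ⌊(2 : ℝ) ^ V a * ∑ j, z ω a j * F.d ω j⌋) (fun ω => ((z ω, s ω), ptq F i₀ q ω))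
      (fun _ => K) (by
        intro ω ω' h h' e a
        obtain ⟨hzz, -, -, -, hx, -⟩ := two ω ω' h h' e
        have h3 := hx a
        rw [hzz, hK]
        refine floor_diff ?_
        rw [← mul_sub, abs_mul, abs_of_pos (by positivity : (0 : ℝ) < 2 ^ V a),
          ← Finset.sum_sub_distrib]
        refine le_trans (le_of_eq ?_) (h3.trans (by linarith only [hmB]))
        congr 2
        refine Finset.sum_congr rfl fun j _ => ?_
        ring)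
    rwa [Ex_const h1] at h2
  have d1 := CH_le_add hp (lab F w P V z s) (fun ω => (z ω, s ω)) (ptq F i₀ q)
  have d2 : CH F.p (lab F w P V z s) (fun ω => ((z ω, s ω), ptq F i₀ q ω)) ≤
      CH F.p (fun ω => ((fun a : Fin r => ⌊(2 : ℝ) ^ P a * ∑ j, z ω a j * F.x1 w ω j⌋),
        (fun a : Fin r => ⌊(2 : ℝ) ^ V a * ∑ j, z ω a j * F.d ω j⌋)))
        (fun ω => ((z ω, s ω), ptq F i₀ q ω)) := by
    refine CH_mono_left hp fun ω ω' h h' e => ?_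
    have e1 := Prod.ext_iff.mp e
    obtain ⟨hzz, hss, hT, hZ, -⟩ := two ω ω' h h' e1.2
    have e2 := Prod.ext_iff.mp e1.1
    exact Prod.ext (Prod.ext (Prod.ext (det_T F w hT).1 (Prod.ext hzz hss))
      (Prod.ext e2.1 e2.2)) hZ
  have d3 := CH_subadd hp (fun ω (a : Fin r) => ⌊(2 : ℝ) ^ P a * ∑ j, z ω a j * F.x1 w ω j⌋)
    (fun ω (a : Fin r) => ⌊(2 : ℝ) ^ V a * ∑ j, z ω a j * F.d ω j⌋)
    (fun ω => ((z ω, s ω), ptq F i₀ q ω))
  linarith only [hvis, c1, c2, d1, d2, d3]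

/-- The label is a function of the window of the line. -/
theorem lab_det {σ : Type} (F : Fam m J) {w : ℕ} {P V : Fin r → ℕ}
    {z : F.Ω → Fin r → Fin m → ℝ} {s : F.Ω → σ} (h : Det F.p (wnd F w) (fun ω => (z ω, s ω))) :
    Det F.p (wnd F w) (lab F w P V z s) := by
  intro ω ω' h1 h2 e
  have hzs : (z ω, s ω) = (z ω', s ω') := h ω ω' h1 h2 e
  have hz : z ω = z ω' := (Prod.ext_iff.mp hzs).1
  have a1 := Prod.ext_iff.mp e
  have a2 := Prod.ext_iff.mp a1.2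
  have hl : F.l ω = F.l ω' := a1.1
  have hT1 : F.T1 w ω = F.T1 w ω' := a2.1
  have hZ : F.Z ω = F.Z ω' := a2.2
  have hlu : F.u ω = F.u ω' := (Prod.ext_iff.mp hl).1
  have hld : F.d ω = F.d ω' := (Prod.ext_iff.mp hl).2
  have hx : F.x1 w ω = F.x1 w ω' := x1_det F w hlu hld hT1
  change (((F.T1 w ω, (z ω, s ω)), (fun a => ⌊(2 : ℝ) ^ P a * ∑ j, z ω a j * F.x1 w ω j⌋,
    fun a => ⌊(2 : ℝ) ^ V a * ∑ j, z ω a j * F.d ω j⌋)), F.Z ω) =
    (((F.T1 w ω', (z ω', s ω')), (fun a => ⌊(2 : ℝ) ^ P a * ∑ j, z ω' a j * F.x1 w ω' j⌋,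
    fun a => ⌊(2 : ℝ) ^ V a * ∑ j, z ω' a j * F.d ω' j⌋)), F.Z ω')
  rw [hzs, hz, hT1, hx, hld, hZ]

/-- **(WFE)** The rows of the base position in a context with linear labels, one family. -/
theorem wfe_one {m r : ℕ} {η : ℝ} (hη : 0 < η) : ∃ γ : ℝ, 0 < γ ∧
    ∀ B C δ κ : ℝ, 0 < κ → ∃ τ > 0, ∃ J₁ : ℕ, ∀ J ≥ J₁, ∀ (F : Fam m J) (A : F.Ω → Prop),
    F.Tr → F.Tm (τ * J) → F.Rb (τ * J) → Real.exp (-(τ * J)) ≤ Pe F.p A →
    ∀ (i₀ : Fin m) (w q x1 H : ℕ), (x1 : ℝ) ≤ γ * J →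
    Stb F.p (κ * J) A (FrzG F i₀ q (q + x1)) → ¬ FrzG F i₀ q (q + x1) A →
    ∀ (f n : (Fin m → ℤ) × (ℕ × F.ζ) → Fin m → ℝ) (σ : Type) (P V g : Fin r → ℕ)
    (z : F.Ω → Fin r → Fin m → ℝ) (s : F.Ω → σ), LOK F A i₀ w q H f n P V g z s B C δ →
    ∀ p : ℕ, q + w ≤ p → p ≤ J → ((p : ℝ) - (q + w : ℕ)) * Real.log 2 - η * J ≤
      CH (Pool.Agent.H49.Ent.cond F.p A True) (fun ω => ⌊(2 : ℝ) ^ p * F.x ω i₀⌋)
        (fun ω => (((⌊(2 : ℝ) ^ (q + w) * F.x1 w ω i₀⌋, ⌊(2 : ℝ) ^ q * F.d ω i₀⌋),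
          lab F w P V z s ω), F.T ω)) := by
  obtain ⟨γ, hγ, hfull⟩ := ws_cls (m := m) hη
  refine ⟨γ, hγ, fun B C δ κ hκ => ?_⟩
  obtain ⟨τ, hτ, J₁, h1⟩ := hfull
    (δ + 2 * (r * Real.log (2 * (C + 3 * (m * |B|) + 1) + 1))) κ hκ
  refine ⟨τ, hτ, J₁, fun J hJ F A hTr hTm hRb hPA i₀ w q x1 H hx1 hFs hFn f n σ P V g z s hL p
    hp hpJ => ?_⟩
  have hp0 := F.isLaw
  obtain ⟨k, hk⟩ := Nat.exists_eq_add_of_le hp
  have key := h1 J hJ F A hTr hTm hRb hPA i₀ w q k x1 _ (lab F w P V z s) (by omega) hx1 hFs hFn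
    (lab_det F hL.det) (by
      intro B' hB' hB0
      have hlB := isLaw_cond hp0 hB0
      have hpos : ∀ ω, 0 < (F.res B' True hlB).p ω → A ω := by
        intro ω hω
        have hω' : 0 < Pool.Agent.H49.Ent.cond F.p B' True ω := hω
        have := ((cond_pos_iff hp0.nonneg B' True ω).1 hω').2
        exact hB' ω (by simpa using this)
      exact lab_vis (F.res B' True hlB) (i₀ := i₀) (w := w) (q := q) (H := H) (by omega)
        (f := f) (n := n) (z := z) (s := s) (g := g) (B := |B|) (abs_nonneg B) hL.P_le hL.PV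
        hL.Vg hL.VH
        (fun ω hω => hL.on ω (hpos ω hω))
        (fun ω hω a j => (hL.bd ω (hpos ω hω) a j).trans (le_abs_self B))
        (fun ω hω => hL.an ω (hpos ω hω)) (hL.vis B' hB' hB0))
  have hps : (p : ℝ) - ((q + w : ℕ) : ℝ) = k := by
    rw [hk]
    push_cast
    ring
  rw [hps, hk]
  refine key.trans (CH_mono_cond (cond_nonneg hp0.nonneg A True) ?_)
  intro ω ω' _ _ h
  have a1 := Prod.ext_iff.mp h
  have a2 := Prod.ext_iff.mp a1.2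
  have a3 := Prod.ext_iff.mp a2.2
  exact Prod.ext (Prod.ext a2.1 a3.1) a1.1

/-- Replacing a condition by another one which it determines up to a bounded number of values. -/
theorem CH_swap {Ω S T U V : Type} [Fintype Ω] {p : Ω → ℝ} (hp : ∀ ω, 0 ≤ p ω) (X : Ω → S)
    (Y : Ω → T) (Y' : Ω → U) (W : Ω → V) :
    CH p X (fun ω => (Y ω, W ω)) ≤ CH p X (fun ω => (Y' ω, W ω)) +
      CH p Y' (fun ω => (Y ω, W ω)) := by
  have h1 := CH_le_add hp X Y' (fun ω => (Y ω, W ω))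
  have h2 : CH p X (fun ω => (Y' ω, (Y ω, W ω))) ≤ CH p X (fun ω => (Y' ω, W ω)) := by
    refine CH_mono_cond hp fun ω ω' _ _ e => ?_
    have e1 := Prod.ext_iff.mp e
    have e2 := Prod.ext_iff.mp e1.2
    exact Prod.ext e1.1 e2.2
  linarith only [h1, h2]

/-- The positions at the time of the sample, given the label and the time. -/
theorem labt_vis {σ : Type} (F : Fam m J) (i₀ : Fin m) {w q : ℕ} (hw : w ≤ J)
    {P V : Fin r → ℕ} {z : F.Ω → Fin r → Fin m → ℝ} {s : F.Ω → σ}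
    (hPV : ∀ a, P a ≤ V a + w) {p : F.Ω → ℝ} (hp : IsLaw p) :
    CH p (fun ω => (⌊(2 : ℝ) ^ (q + w) * F.x ω i₀⌋, labt F w P V z s ω))
      (fun ω => ((⌊(2 : ℝ) ^ (q + w) * F.x1 w ω i₀⌋, lab F w P V z s ω),
        (⌊(2 : ℝ) ^ q * F.d ω i₀⌋, F.T ω))) ≤ (r + 1) * Real.log 7 := by
  have hp0 := hp.nonneg
  have h1 := hp.sum_one
  -- two samples
  have key : ∀ ω ω' (P₁ V₁ : ℕ) (y : Fin m → ℝ), P₁ ≤ V₁ + w → F.T ω = F.T ω' →
      |(2 : ℝ) ^ P₁ * ∑ j, y j * F.x1 w ω j - 2 ^ P₁ * ∑ j, y j * F.x1 w ω' j| ≤ 1 →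
      |(2 : ℝ) ^ V₁ * ∑ j, y j * F.d ω j - 2 ^ V₁ * ∑ j, y j * F.d ω' j| ≤ 1 →
      |(2 : ℝ) ^ P₁ * ∑ j, y j * F.x ω j - 2 ^ P₁ * ∑ j, y j * F.x ω' j| ≤ 2 := by
    intro ω ω' P₁ V₁ y hPV hT ha hb
    obtain ⟨τ, hτ⟩ : ∃ τ : ℝ, τ = ((F.T ω' % 2 ^ (J - w) : ℕ) : ℝ) / 2 ^ (J - w) := ⟨_, rfl⟩
    have hτm := tau_mem F w ω'
    rw [← hτ] at hτm
    have e1 : ∀ ω₁, F.T ω₁ = F.T ω' → ∑ j, y j * F.x ω₁ j =
        ∑ j, y j * F.x1 w ω₁ j + τ * (2 ^ w)⁻¹ * ∑ j, y j * F.d ω₁ j := by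
      intro ω₁ hT₁
      rw [Finset.mul_sum, ← Finset.sum_add_distrib]
      refine Finset.sum_congr rfl fun j _ => ?_
      rw [x1_eq F hw, hT₁, ← hτ]
      ring
    rw [e1 ω hT, e1 ω' rfl]
    have e2 : (2 : ℝ) ^ P₁ * (∑ j, y j * F.x1 w ω j + τ * (2 ^ w)⁻¹ * ∑ j, y j * F.d ω j) -
        2 ^ P₁ * (∑ j, y j * F.x1 w ω' j + τ * (2 ^ w)⁻¹ * ∑ j, y j * F.d ω' j) =
        (2 ^ P₁ * ∑ j, y j * F.x1 w ω j - 2 ^ P₁ * ∑ j, y j * F.x1 w ω' j) +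
        (τ * (2 ^ P₁ / (2 ^ V₁ * 2 ^ w))) *
          (2 ^ V₁ * ∑ j, y j * F.d ω j - 2 ^ V₁ * ∑ j, y j * F.d ω' j) := by
      field_simp
      ring
    rw [e2]
    have h3 : τ * ((2 : ℝ) ^ P₁ / (2 ^ V₁ * 2 ^ w)) ≤ 1 := by
      have : (2 : ℝ) ^ P₁ / (2 ^ V₁ * 2 ^ w) ≤ 1 := by
        rw [div_le_one (by positivity), ← pow_add]
        exact pow_le_pow_right₀ (by norm_num) hPV
      calc τ * ((2 : ℝ) ^ P₁ / (2 ^ V₁ * 2 ^ w)) ≤ 1 * 1 :=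
            mul_le_mul hτm.2 this (by positivity) (by norm_num)
        _ = 1 := by norm_num
    have h4 : 0 ≤ τ * ((2 : ℝ) ^ P₁ / (2 ^ V₁ * 2 ^ w)) := mul_nonneg hτm.1 (by positivity)
    refine (abs_add_le _ _).trans ?_
    have h5 : |τ * ((2 : ℝ) ^ P₁ / (2 ^ V₁ * 2 ^ w)) *
        (2 ^ V₁ * ∑ j, y j * F.d ω j - 2 ^ V₁ * ∑ j, y j * F.d ω' j)| ≤ 1 := by
      rw [abs_mul, abs_of_nonneg h4]
      calc _ ≤ (1 : ℝ) * 1 := mul_le_mul h3 hb (abs_nonneg _) (by norm_num)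
        _ = 1 := by norm_num
    linarith only [ha, h5]
  obtain ⟨W, hW⟩ : ∃ W : F.Ω → _, W = fun ω =>
      ((⌊(2 : ℝ) ^ (q + w) * F.x1 w ω i₀⌋, lab F w P V z s ω),
        (⌊(2 : ℝ) ^ q * F.d ω i₀⌋, F.T ω)) := ⟨_, rfl⟩
  rw [← hW]
  have hWe : ∀ ω ω', W ω = W ω' → ⌊(2 : ℝ) ^ (q + w) * F.x1 w ω i₀⌋ =
      ⌊(2 : ℝ) ^ (q + w) * F.x1 w ω' i₀⌋ ∧ lab F w P V z s ω = lab F w P V z s ω' ∧
      ⌊(2 : ℝ) ^ q * F.d ω i₀⌋ = ⌊(2 : ℝ) ^ q * F.d ω' i₀⌋ ∧ F.T ω = F.T ω' := by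
    intro ω ω' e
    rw [hW] at e
    have e1 := Prod.ext_iff.mp e
    have e2 := Prod.ext_iff.mp e1.1
    have e3 := Prod.ext_iff.mp e1.2
    exact ⟨e2.1, e2.2, e3.1, e3.2⟩
  have c1 : CH p (fun ω (_ : Fin 1) => ⌊(2 : ℝ) ^ (q + w) * F.x ω i₀⌋) W ≤ Real.log 7 := by
    have h2 := CH_le_vec hp0 h1 (fun ω (_ : Fin 1) => ⌊(2 : ℝ) ^ (q + w) * F.x ω i₀⌋) W
      (fun _ => 3) (by
        intro ω ω' _ _ e a
        obtain ⟨a1, -, a2, a3⟩ := hWe ω ω' e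
        have k0 : ∀ v : Fin m → ℝ, ∑ j, (Pi.single i₀ (1 : ℝ) : Fin m → ℝ) j * v j = v i₀ := by
          intro v
          rw [Finset.sum_eq_single i₀ (fun j _ hj => by rw [Pi.single_eq_of_ne hj, zero_mul])
            (fun h => absurd (Finset.mem_univ _) h), Pi.single_eq_same, one_mul]
        have k1 := key ω ω' (q + w) q (Pi.single i₀ 1) le_rfl a3 (by
          rw [k0, k0]
          exact floor_eq_abs a1) (by
          rw [k0, k0]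
          exact floor_eq_abs a2)
        rw [k0, k0] at k1
        have k2 := floor_diff k1
        linarith only [k2])
    rw [Ex_const h1] at h2
    norm_num at h2
    exact h2
  have c2 : CH p (fun ω (a : Fin r) => ⌊(2 : ℝ) ^ P a * ∑ j, z ω a j * F.x ω j⌋) W ≤
      r * Real.log 7 := by
    have h2 := CH_le_vec hp0 h1 (fun ω (a : Fin r) =>
      ⌊(2 : ℝ) ^ P a * ∑ j, z ω a j * F.x ω j⌋) W (fun _ => 3) (by
        intro ω ω' _ _ e a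
        obtain ⟨-, a1, -, a3⟩ := hWe ω ω' e
        have b1 := Prod.ext_iff.mp (Prod.ext_iff.mp a1).1
        have b2 : z ω = z ω' := (Prod.ext_iff.mp (Prod.ext_iff.mp b1.1).2).1
        have b3 := Prod.ext_iff.mp b1.2
        have b4 : ⌊(2 : ℝ) ^ P a * ∑ j, z ω a j * F.x1 w ω j⌋ =
          ⌊(2 : ℝ) ^ P a * ∑ j, z ω' a j * F.x1 w ω' j⌋ := congrFun b3.1 a
        have b5 : ⌊(2 : ℝ) ^ V a * ∑ j, z ω a j * F.d ω j⌋ =
          ⌊(2 : ℝ) ^ V a * ∑ j, z ω' a j * F.d ω' j⌋ := congrFun b3.2 a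
        rw [b2] at b4 b5
        have k1 := key ω ω' (P a) (V a) (z ω' a) (hPV a) a3 (floor_eq_abs b4)
          (floor_eq_abs b5)
        rw [b2]
        have k2 := floor_diff k1
        linarith only [k2])
    rw [Ex_const h1] at h2
    norm_num at h2
    exact h2
  have d1 : CH p (fun ω => (⌊(2 : ℝ) ^ (q + w) * F.x ω i₀⌋, labt F w P V z s ω)) W ≤
      CH p (fun ω => ((fun _ : Fin 1 => ⌊(2 : ℝ) ^ (q + w) * F.x ω i₀⌋),
        (fun a : Fin r => ⌊(2 : ℝ) ^ P a * ∑ j, z ω a j * F.x ω j⌋))) W := by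
    refine CH_mono_left hp0 fun ω ω' _ _ e => ?_
    have e1 := Prod.ext_iff.mp e
    obtain ⟨-, a1, -, -⟩ := hWe ω ω' e1.2
    have e2 := Prod.ext_iff.mp e1.1
    have e3 : ⌊(2 : ℝ) ^ (q + w) * F.x ω i₀⌋ = ⌊(2 : ℝ) ^ (q + w) * F.x ω' i₀⌋ :=
      congrFun e2.1 0
    have b0 := Prod.ext_iff.mp a1
    have b1 := Prod.ext_iff.mp b0.1
    have b3 := Prod.ext_iff.mp b1.2
    exact Prod.ext e3 (Prod.ext (Prod.ext b1.1 (Prod.ext e2.2 b3.2)) b0.2)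
  have d2 := CH_subadd hp0 (fun ω (_ : Fin 1) => ⌊(2 : ℝ) ^ (q + w) * F.x ω i₀⌋)
    (fun ω (a : Fin r) => ⌊(2 : ℝ) ^ P a * ∑ j, z ω a j * F.x ω j⌋) W
  linarith only [c1, c2, d1, d2]

/-- **(WFE)**, with the positions at the time of the sample in the condition. -/
theorem wfe_time {m r : ℕ} {η : ℝ} (hη : 0 < η) : ∃ γ : ℝ, 0 < γ ∧
    ∀ B C δ κ : ℝ, 0 < κ → ∃ τ > 0, ∃ J₁ : ℕ, ∀ J ≥ J₁, ∀ (F : Fam m J) (A : F.Ω → Prop),
    F.Tr → F.Tm (τ * J) → F.Rb (τ * J) → Real.exp (-(τ * J)) ≤ Pe F.p A →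
    ∀ (i₀ : Fin m) (w q x1 H : ℕ), (x1 : ℝ) ≤ γ * J →
    Stb F.p (κ * J) A (FrzG F i₀ q (q + x1)) → ¬ FrzG F i₀ q (q + x1) A →
    ∀ (f n : (Fin m → ℤ) × (ℕ × F.ζ) → Fin m → ℝ) (σ : Type) (P V g : Fin r → ℕ)
    (z : F.Ω → Fin r → Fin m → ℝ) (s : F.Ω → σ), LOK F A i₀ w q H f n P V g z s B C δ →
    ∀ p : ℕ, q + w ≤ p → p ≤ J → ((p : ℝ) - (q + w : ℕ)) * Real.log 2 - η * J ≤
      CH (Pool.Agent.H49.Ent.cond F.p A True) (fun ω => ⌊(2 : ℝ) ^ p * F.x ω i₀⌋)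
        (fun ω => ((⌊(2 : ℝ) ^ (q + w) * F.x ω i₀⌋, labt F w P V z s ω),
          (⌊(2 : ℝ) ^ q * F.d ω i₀⌋, F.T ω))) := by
  obtain ⟨γ, hγ, hfull⟩ := wfe_one (m := m) (r := r) (half_pos hη)
  refine ⟨γ, hγ, fun B C δ κ hκ => ?_⟩
  obtain ⟨τ, hτ, J₁, h1⟩ := hfull B C δ κ hκ
  obtain ⟨J₂, hJ₂⟩ := exists_nat_gt (2 * ((r + 1) * Real.log 7) / η)
  refine ⟨τ, hτ, max J₁ J₂, fun J hJ F A hTr hTm hRb hPA i₀ w q x1 H hx1 hFs hFn f n σ P V g z s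
    hL p hp hpJ => ?_⟩
  have hJr : 2 * ((r + 1) * Real.log 7) / η < J :=
    hJ₂.trans_le (by exact_mod_cast (le_max_right _ _).trans hJ)
  rw [div_lt_iff₀ hη] at hJr
  have hA0 : 0 < Pe F.p A := lt_of_lt_of_le (Real.exp_pos _) hPA
  have hl := isLaw_cond F.isLaw hA0
  have key := h1 J ((le_max_left _ _).trans hJ) F A hTr hTm hRb hPA i₀ w q x1 H hx1 hFs hFn f n σ
    P V g z s hL p hp hpJ
  have h2 := CH_swap hl.nonneg (fun ω => ⌊(2 : ℝ) ^ p * F.x ω i₀⌋)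
    (fun ω => (⌊(2 : ℝ) ^ (q + w) * F.x1 w ω i₀⌋, lab F w P V z s ω))
    (fun ω => (⌊(2 : ℝ) ^ (q + w) * F.x ω i₀⌋, labt F w P V z s ω))
    (fun ω => (⌊(2 : ℝ) ^ q * F.d ω i₀⌋, F.T ω))
  have h3 := labt_vis F i₀ (w := w) (q := q) (by omega) (z := z) (s := s) hL.PV hl
  have h4 : CH (Pool.Agent.H49.Ent.cond F.p A True) (fun ω => ⌊(2 : ℝ) ^ p * F.x ω i₀⌋)
        (fun ω => (((⌊(2 : ℝ) ^ (q + w) * F.x1 w ω i₀⌋, ⌊(2 : ℝ) ^ q * F.d ω i₀⌋),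
          lab F w P V z s ω), F.T ω)) ≤
      CH (Pool.Agent.H49.Ent.cond F.p A True) (fun ω => ⌊(2 : ℝ) ^ p * F.x ω i₀⌋)
        (fun ω => ((⌊(2 : ℝ) ^ (q + w) * F.x1 w ω i₀⌋, lab F w P V z s ω),
          (⌊(2 : ℝ) ^ q * F.d ω i₀⌋, F.T ω))) := by
    refine CH_mono_cond hl.nonneg fun ω ω' _ _ e => ?_
    have e1 := Prod.ext_iff.mp e
    have e2 := Prod.ext_iff.mp e1.1
    have e3 := Prod.ext_iff.mp e2.1
    exact Prod.ext (Prod.ext e3.1 e2.2) (Prod.ext e3.2 e1.2)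
  linarith only [hJr, key, h2, h3, h4]

/-- **(WFE)** in the classes of helper18: `q` and `x` are functions of the resolution. -/
theorem wfe_clg {m r : ℕ} {η : ℝ} (hη : 0 < η) : ∃ γ : ℝ, 0 < γ ∧
    ∀ (S : FCl m) (q x : ℕ → ℕ), (∀ J : ℕ, (x J : ℝ) ≤ γ * J) → ∀ (i₀ : Fin m) (B C δ : ℝ),
    Clg S (fun J F A => ¬ FrzG F i₀ (q J) (q J + x J) A → ∀ (w H : ℕ)
      (f n : (Fin m → ℤ) × (ℕ × F.ζ) → Fin m → ℝ) (σ : Type) (P V g : Fin r → ℕ)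
      (z : F.Ω → Fin r → Fin m → ℝ) (s : F.Ω → σ),
      LOK F A i₀ w (q J) H f n P V g z s B C δ → ∀ p : ℕ, q J + w ≤ p → p ≤ J →
      ((p : ℝ) - (q J + w : ℕ)) * Real.log 2 - η * J ≤
        CH (Pool.Agent.H49.Ent.cond F.p A True) (fun ω => ⌊(2 : ℝ) ^ p * F.x ω i₀⌋)
          (fun ω => (((⌊(2 : ℝ) ^ (q J + w) * F.x1 w ω i₀⌋, ⌊(2 : ℝ) ^ q J * F.d ω i₀⌋),
            lab F w P V z s ω), F.T ω)) ∧
      ((p : ℝ) - (q J + w : ℕ)) * Real.log 2 - η * J ≤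
        CH (Pool.Agent.H49.Ent.cond F.p A True) (fun ω => ⌊(2 : ℝ) ^ p * F.x ω i₀⌋)
          (fun ω => ((⌊(2 : ℝ) ^ (q J + w) * F.x ω i₀⌋, labt F w P V z s ω),
            (⌊(2 : ℝ) ^ q J * F.d ω i₀⌋, F.T ω)))) := by
  obtain ⟨γ₁, hγ₁, h1⟩ := wfe_one (m := m) (r := r) hη
  obtain ⟨γ₂, hγ₂, h2⟩ := wfe_time (m := m) (r := r) hη
  refine ⟨min γ₁ γ₂, lt_min hγ₁ hγ₂, fun S q x hx i₀ B C δ => ?_⟩
  refine Clg.one ⟨1, fun J F _ => FrzG F i₀ (q J) (q J + x J),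
    fun J F _ => FrzG.hered F i₀ _ _⟩ fun κ hκ => ?_
  obtain ⟨τ₁, hτ₁, J₁, k1⟩ := h1 B C δ κ hκ
  obtain ⟨τ₂, hτ₂, J₂, k2⟩ := h2 B C δ κ hκ
  refine ⟨min τ₁ τ₂, lt_min hτ₁ hτ₂, max J₁ J₂, fun J hJ F A hS hSb hnF w H f n σ P V g z s hL p
    hp hpJ => ?_⟩
  have hJ0 : (0 : ℝ) ≤ J := Nat.cast_nonneg J
  have hS1 := hS.mono (min_le_left τ₁ τ₂)
  have hS2 := hS.mono (min_le_right τ₁ τ₂)
  exact ⟨k1 J ((le_max_left _ _).trans hJ) F A (S.tr hS1.1) (S.tm hS1.1) (S.rb hS1.1) hS1.2 i₀ w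
      (q J) (x J) H ((hx J).trans (mul_le_mul_of_nonneg_right (min_le_left _ _) hJ0)) (hSb 0) hnF
      f n σ P V g z s hL p hp hpJ,
    k2 J ((le_max_right _ _).trans hJ) F A (S.tr hS2.1) (S.tm hS2.1) (S.rb hS2.1) hS2.2 i₀ w
      (q J) (x J) H ((hx J).trans (mul_le_mul_of_nonneg_right (min_le_right _ _) hJ0)) (hSb 0) hnF
      f n σ P V g z s hL p hp hpJ⟩

/-- Covectors which are rounded values of functions of the exact point are visible. -/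
theorem grid_vis (F : Fam m J) (i₀ : Fin m) (q : ℕ) {A : F.Ω → Prop} {k : Fin r → Fin m → ℕ}
    {z : F.Ω → Fin r → Fin m → ℝ} {φ : (Fin m → ℤ) × (ℕ × F.ζ) → Fin r → Fin m → ℝ} {E : ℝ}
    (hgr : ∀ ω a j, ∃ c : ℤ, z ω a j = c / 2 ^ k a j)
    (hcl : ∀ ω, A ω → ∀ a j, |z ω a j - φ (Fam.pt F ω) a j| ≤ E / 2 ^ k a j)
    (B' : F.Ω → Prop) (hB' : Sub B' A) (hB0 : 0 < Pe F.p B') :
    CH (Pool.Agent.H49.Ent.cond F.p B' True) z (ptq F i₀ q) ≤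
      r * (m * Real.log (2 * (2 * E) + 1)) := by
  have hl := isLaw_cond F.isLaw hB0
  have hA : ∀ ω, 0 < Pool.Agent.H49.Ent.cond F.p B' True ω → A ω := by
    intro ω hω
    have := ((cond_pos_iff F.isLaw.nonneg B' True ω).1 hω).2
    exact hB' ω (by simpa using this)
  choose c hc using hgr
  have h1 : ∀ a : Fin r, CH (Pool.Agent.H49.Ent.cond F.p B' True) (fun ω => c ω a)
      (ptq F i₀ q) ≤ m * Real.log (2 * (2 * E) + 1) := by
    intro a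
    have h2 := CH_le_vec hl.nonneg hl.sum_one (fun ω => c ω a) (ptq F i₀ q) (fun _ => 2 * E) (by
      intro ω ω' h h' e j
      have e1 : Fam.pt F ω = Fam.pt F ω' := (Prod.ext_iff.mp e).1
      have g1 := hcl ω (hA ω h) a j
      have g2 := hcl ω' (hA ω' h') a j
      rw [hc ω a j] at g1
      rw [hc ω' a j, ← e1] at g2
      have pk : (0 : ℝ) < 2 ^ k a j := by positivity
      have g3 : |(c ω a j : ℝ) / 2 ^ k a j - c ω' a j / 2 ^ k a j| ≤ 2 * E / 2 ^ k a j := by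
        have e2 : (c ω a j : ℝ) / 2 ^ k a j - c ω' a j / 2 ^ k a j =
            (c ω a j / 2 ^ k a j - φ (Fam.pt F ω) a j) -
              (c ω' a j / 2 ^ k a j - φ (Fam.pt F ω) a j) := by ring
        rw [e2]
        refine (abs_sub _ _).trans ((add_le_add g1 g2).trans (le_of_eq ?_))
        ring
      rw [← sub_div, abs_div, abs_of_pos pk, div_le_div_iff_of_pos_right pk] at g3
      push_cast
      exact g3)
    rwa [Ex_const hl.sum_one] at h2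
  have h3 := CH_pi_le hl.nonneg (ptq F i₀ q) r (fun a => fun ω => c ω a) h1
  refine le_trans (CH_mono_left hl.nonneg fun ω ω' _ _ e => ?_) h3
  have e1 := Prod.ext_iff.mp e
  funext a j
  have e2 : c ω a = c ω' a := congrFun e1.1 a
  rw [hc ω a j, hc ω' a j, e2]

end Pool.S6K.Wfe
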